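import Pool.Agent.H46.VT.Red

namespace Pool.Agent.H42.VT.LB

open _root_.VT
open Nat.Partrec (Code)
open Nat.Partrec.Code Encodable Denumerable

theorem wst_mono {c : Code} {s t x : ℕ} (h : s ≤ t) (hw : Wst c s x) : Wst c t x := by
  unfold Wst at *
  rw [Option.isSome_iff_exists] at *
  obtain ⟨a, ha⟩ := hw
  exact ⟨a, evaln_mono h ha⟩

theorem not_wst_zero (c : Code) (x : ℕ) : ¬ Wst c 0 x := by
  unfold Wst
  intro h
  rw [Option.isSome_iff_exists] at h
  obtain ⟨a, ha⟩ := h
  have := evaln_bound (k := 0) (c := c) (n := x) (x := a) ha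
  omega

/-- the bits seen at stage `s` -/
def F (l : List Code) (x s : ℕ) : Finset ℕ :=
  (Finset.range l.length).filter (fun j => Wst (l.getD j Code.zero) s x)

theorem F_mono (l : List Code) (x : ℕ) {s t : ℕ} (h : s ≤ t) : F l x s ⊆ F l x t := by
  intro j hj
  unfold F at *
  rw [Finset.mem_filter] at *
  exact ⟨hj.1, wst_mono h hj.2⟩

theorem mem_F (l : List Code) (x s j : ℕ) :
    j ∈ F l x s ↔ j < l.length ∧ Wst (l.getD j Code.zero) s x := by
  unfold F
  rw [Finset.mem_filter, Finset.mem_range]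

theorem card_F_le (l : List Code) (x s : ℕ) : (F l x s).card ≤ l.length := by
  unfold F
  refine le_trans (Finset.card_filter_le _ _) ?_
  rw [Finset.card_range]

theorem pres_iff (hPS : TARGET_PS) (l : List Code) (x s : ℕ) :
    presSt l s x ↔ ∃ j, j % 2 = 0 ∧ j ∈ F l x s ∧ (j + 1 < l.length → j + 1 ∉ F l x s) := by
  rw [hPS.1 l s x]
  constructor
  · rintro ⟨j, hj, h2, hw, hn⟩
    exact ⟨j, h2, (mem_F _ _ _ _).2 ⟨hj, hw⟩, fun h h' => hn h ((mem_F _ _ _ _).1 h').2⟩
  · rintro ⟨j, h2, hw, hn⟩
    have := (mem_F _ _ _ _).1 hw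
    exact ⟨j, this.1, h2, this.2, fun h h' => hn h ((mem_F _ _ _ _).2 ⟨h, h'⟩)⟩

theorem step_card (hPS : TARGET_PS) (l : List Code) (x : ℕ) {s t : ℕ} (h : s ≤ t)
    (hd : ¬ (presSt l s x ↔ presSt l t x)) : (F l x s).card + 1 ≤ (F l x t).card := by
  by_contra hc
  have hle : (F l x t).card ≤ (F l x s).card := by omega
  have he := Finset.eq_of_subset_of_card_le (F_mono l x h) hle
  apply hd
  rw [pres_iff hPS, pres_iff hPS, he]

theorem pf_LB (hRA : TARGET_RA) (hPS : TARGET_PS) : TARGET_LB := by
  intro ph hrun s x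
  obtain ⟨hpos, -⟩ := hRA ph hrun
  have hlen : (lX x).length ≤ mX x := by
    unfold lX
    rw [List.length_take]
    exact min_le_left _ _
  have hL : mX x ≤ LX x := by unfold LX; omega
  have inv : ∀ s, (((ph s x).2 = LX x + 4 → ∃ s' ≤ s, ¬ presSt (lX x) s' x ∧
      2 * (ph s x).1 ≤ (F (lX x) x s').card) ∧
      ((ph s x).2 ≠ LX x + 4 → ∃ s' ≤ s, presSt (lX x) s' x ∧
      2 * (ph s x).1 + 1 ≤ (F (lX x) x s').card)) := by
    intro s
    induction s with
    | zero =>
      rw [hrun.1 x]
      refine ⟨fun _ => ⟨0, le_rfl, ?_, by simp⟩, fun h => absurd rfl h⟩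
      rw [pres_iff hPS]
      rintro ⟨j, -, hj, -⟩
      exact not_wst_zero _ _ ((mem_F _ _ _ _).1 hj).2
    | succ s ih =>
      obtain ⟨ih1, ih2⟩ := ih
      have hp := hpos s x
      rw [hrun.2 s x]
      unfold nxt
      split_ifs with h1 h2
      · -- level goes up
        obtain ⟨h2a, h2b⟩ := h2
        obtain ⟨s0, hs0, hp0, hc0⟩ := ih2 (by omega)
        refine ⟨fun _ => ⟨s, by omega, h2b, ?_⟩, fun h => absurd rfl h⟩
        have := step_card hPS (lX x) x hs0 (by tauto)
        simp only
        omega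
      · -- one position down
        obtain ⟨-, hm⟩ := h1
        by_cases h4 : (ph s x).2 = LX x + 4
        · refine ⟨fun h => ?_, fun _ => ?_⟩
          · simp only at h; omega
          · obtain ⟨s0, hs0, hp0, hc0⟩ := ih1 h4
            have hpr : presSt (lX x) s x := by
              unfold MvC at hm
              rcases hm with hm | hm | hm | hm | hm
              · exact hm.2.1
              · omega
              · omega
              · omega
              · obtain ⟨k, hk, hk2, -⟩ := hm
                unfold ptr at hk2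
                split_ifs at hk2 <;> omega
            have := step_card hPS (lX x) x hs0 (by tauto)
            refine ⟨s, by omega, hpr, ?_⟩
            simp only
            omega
        · obtain ⟨s0, hs0, hp0, hc0⟩ := ih2 h4
          refine ⟨fun h => ?_, fun _ => ⟨s0, by omega, hp0, hc0⟩⟩
          simp only at h
          omega
      · refine ⟨fun h => ?_, fun h => ?_⟩
        · obtain ⟨s0, hs0, h⟩ := ih1 h
          exact ⟨s0, by omega, h⟩
        · obtain ⟨s0, hs0, h⟩ := ih2 h
          exact ⟨s0, by omega, h⟩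
  obtain ⟨i1, i2⟩ := inv s
  by_cases h4 : (ph s x).2 = LX x + 4
  · obtain ⟨s0, -, -, h⟩ := i1 h4
    have := card_F_le (lX x) x s0
    omega
  · obtain ⟨s0, -, -, h⟩ := i2 h4
    have := card_F_le (lX x) x s0
    omega

end Pool.Agent.H42.VT.LB
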