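import Pool.Agent.H46.VT.Red

namespace Pool.Agent.H42.VT.PI

open _root_.VT

theorem rr_mono (x : ℕ) {c c' : ℕ} (h : c' ≤ c) : rr x c' ≤ rr x c := by
  unfold rr
  split_ifs <;> omega

theorem pf_PI (hRA : TARGET_RA) (hPL : TARGET_PL) : TARGET_PI := by
  intro ph hrun x
  have key : ∀ c : ℕ, ∀ s, (ph s x).2 = c → (wX x).length = LX x →
      (ph s x).2 ≤ LX x + 3 → (∀ k < LX x, k < rr x (ph s x).2 → gX x k = tv ph k) →
      ∃ t ≥ s, (ph s x).1 < (ph t x).1 ∨ (ph t x).2 = 0 := by
    intro c
    induction c using Nat.strong_induction_on with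
    | _ c ih =>
      intro s hc hlen hpos hg
      by_cases h0 : (ph s x).2 = 0
      · exact ⟨s, le_rfl, Or.inr h0⟩
      · obtain ⟨t, hts, hne⟩ := hPL ph hrun x s hlen h0 hg (fun h => by omega)
        obtain ⟨-, -, -, -, -, -, -, h8, -⟩ := hRA ph hrun
        obtain ⟨h1, h2⟩ := h8 s t x hts
        rcases Nat.lt_or_ge (ph s x).1 (ph t x).1 with hlt | hge
        · exact ⟨t, hts, Or.inl hlt⟩
        · have he : (ph s x).1 = (ph t x).1 := le_antisymm h1 hge
          have h3 := h2 he
          have h4 : (ph t x).2 ≠ (ph s x).2 := by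
            intro h
            exact hne (Prod.ext he.symm h)
          have h5 : (ph t x).2 < c := by omega
          obtain ⟨t', ht', hd⟩ := ih _ h5 t rfl hlen (by omega)
            (fun k hk hk' => hg k hk (lt_of_lt_of_le hk' (rr_mono x h3)))
          refine ⟨t', le_trans hts ht', ?_⟩
          rcases hd with hd | hd
          · left; omega
          · right; exact hd
  intro s hlen hpos hg
  exact key _ s rfl hlen hpos hg

end Pool.Agent.H42.VT.PI
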